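import Mathlib
import Pool.Agent.Q281.SM.Example
import Pool.Agent.Q281.SM.Units
import Pool.Agent.Q281.SM.ZSofic

/-!
# Soficity is not determined by the action of the group of units
-/

namespace Pool.Agent.Results.MP_6908e1_al.SoficNotActionInvariant

open Q281.SM

/-- There are monoids `M` and `N`, in each of which the `J`-class of the identity is the group of
units, and a bijection `ρ : M → N` which restricts to a group isomorphism `U(M) → U(N)` and
satisfies `ρ (s t) = ρ s ρ t` for all `s ∈ M` and all units `t`, such that `M` is sofic and `N` is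
not sofic. -/
theorem result : ∃ (M N : Type) (_ : Monoid M) (_ : Monoid N) (ρ : M ≃ N) (φ : Mˣ ≃* Nˣ),
    JOne M = {m | IsUnit m} ∧ JOne N = {n | IsUnit n} ∧
      (∀ u : Mˣ, ρ u = φ u) ∧ (∀ (s : M) (t : Mˣ), ρ (s * t) = ρ s * ρ t) ∧
      IsSofic M ∧ ¬ IsSofic N := by
  refine ⟨ZMon H0, NMon H0, inferInstance, inferInstance, Equiv.refl (Car H0),
    (zUnits H0).symm.trans (nUnits H0), zJOne, nJOne, ?_, ?_, isSofic_ZMon (locSep X0),
    not_sofic_NMon⟩
  · intro u
    obtain ⟨a, rfl⟩ := (zUnits H0).surjective u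
    rw [MulEquiv.trans_apply, MulEquiv.symm_apply_apply]
    rfl
  · intro s t
    obtain ⟨a, rfl⟩ := (zUnits H0).surjective t
    cases s <;> rfl

end Pool.Agent.Results.MP_6908e1_al.SoficNotActionInvariant
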